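import Pool.Agent.H37.CNZ.Stmts

/-! Row PEX of board `cnz` (helper78): covers of `p`-groups containing `k(x)`. -/

set_option autoImplicit false

namespace Pool.CND

open Finset

namespace PEXaux

theorem Apol_congr {k G G' : Type} [Field k] [Finite G] [Finite G'] (ι : G → k) (ι' : G' → k)
    (h : Set.range ι = Set.range ι') : Apol ι = Apol ι' := by
  unfold Apol
  have h1 : (Set.finite_range ι).toFinset = (Set.finite_range ι').toFinset := by
    rw [Set.Finite.toFinset_inj]
    exact h
  rw [h1]

/-- the kernel -/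
def ker {k G : Type} [Field k] [Group G] (ι : G → k) (h : ∀ g g' : G, ι (g * g') = ι g + ι g') :
    Subgroup G where
  carrier := {g | ι g = 0}
  mul_mem' := by
    intro a b ha hb
    change ι (a * b) = 0
    rw [h, show ι a = 0 from ha, show ι b = 0 from hb, add_zero]
  one_mem' := by
    change ι 1 = 0
    have := h 1 1
    rw [mul_one] at this
    exact left_eq_add.1 this
  inv_mem' := by
    intro a ha
    change ι a⁻¹ = 0
    have h1 : ι 1 = 0 := by
      have := h 1 1
      rw [mul_one] at this
      exact left_eq_add.1 this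
    have h2 := h a a⁻¹
    rw [mul_inv_cancel, h1, show ι a = 0 from ha, zero_add] at h2
    exact h2.symm

theorem mem_ker {k G : Type} [Field k] [Group G] (ι : G → k)
    (h : ∀ g g' : G, ι (g * g') = ι g + ι g') (g : G) : g ∈ ker ι h ↔ ι g = 0 := Iff.rfl

theorem ker_normal {k G : Type} [Field k] [Group G] (ι : G → k)
    (h : ∀ g g' : G, ι (g * g') = ι g + ι g') : (ker ι h).Normal := by
  constructor
  intro n hn g
  rw [mem_ker] at hn ⊢
  have h1 := h g g⁻¹
  have h0 : ι 1 = 0 := (ker ι h).one_mem
  rw [mul_inv_cancel, h0] at h1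
  rw [h, h, hn, add_zero, ← h1]

/-- a nontrivial normal subgroup of a `p`-group contains a central element of order `p` -/
theorem central {p n : ℕ} {G : Type} [Group G] [Finite G] (hp : p.Prime)
    (hn : Nat.card G = p ^ n) (K : Subgroup G) [K.Normal] (hK : K ≠ ⊥) :
    ∃ z ∈ K, orderOf z = p ∧ ∀ g : G, g * z = z * g := by
  haveI : Fact p.Prime := ⟨hp⟩
  have hG : IsPGroup p G := IsPGroup.of_card hn
  have hC : IsPGroup p (ConjAct G) := hG.of_equiv ConjAct.toConjAct
  have hpK : p ∣ Nat.card K := by
    have h1 : Nat.card K ∣ p ^ n := hn ▸ Subgroup.card_subgroup_dvd_card K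
    obtain ⟨i, _, hi⟩ := (Nat.dvd_prime_pow hp).1 h1
    rcases i with _ | i
    · exfalso
      rw [pow_zero] at hi
      exact hK (Subgroup.card_eq_one.1 hi)
    · rw [hi, pow_succ]
      exact dvd_mul_left _ _
  have h1 : (1 : K) ∈ MulAction.fixedPoints (ConjAct G) K := by
    rw [MulAction.mem_fixedPoints]
    intro g
    exact smul_one g
  obtain ⟨b, hb, hb1⟩ := hC.exists_fixed_point_of_prime_dvd_card_of_fixed_point K hpK h1
  rw [MulAction.mem_fixedPoints] at hb
  have hbc : ∀ g : G, g * (b : G) = (b : G) * g := by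
    intro g
    have h2 := congrArg (Subtype.val) (hb (ConjAct.toConjAct g))
    rw [ConjAct.Subgroup.val_conj_smul, ConjAct.smul_def, ConjAct.ofConjAct_toConjAct] at h2
    have h3 := congrArg (fun y => y * g) h2
    simpa [mul_assoc] using h3
  let Z : Subgroup G := K ⊓ Subgroup.center G
  have hbZ : (b : G) ∈ Z := by
    refine Subgroup.mem_inf.2 ⟨b.2, ?_⟩
    rw [Subgroup.mem_center_iff]
    exact hbc
  have hZ : Z ≠ ⊥ := by
    intro h0
    have h2 : (b : G) ∈ (⊥ : Subgroup G) := h0 ▸ hbZ
    rw [Subgroup.mem_bot] at h2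
    exact hb1 (Subtype.ext h2.symm)
  have hpZ : p ∣ Nat.card Z := by
    have h1 : Nat.card Z ∣ p ^ n := hn ▸ Subgroup.card_subgroup_dvd_card Z
    obtain ⟨i, _, hi⟩ := (Nat.dvd_prime_pow hp).1 h1
    rcases i with _ | i
    · exfalso
      rw [pow_zero] at hi
      exact hZ (Subgroup.card_eq_one.1 hi)
    · rw [hi, pow_succ]
      exact dvd_mul_left _ _
  obtain ⟨x, hx⟩ := exists_prime_orderOf_dvd_card' p hpZ
  refine ⟨(x : G), (Subgroup.mem_inf.1 x.2).1, ?_, ?_⟩
  · rw [Subgroup.orderOf_coe]
    exact hx
  · have h2 := (Subgroup.mem_inf.1 x.2).2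
    rw [Subgroup.mem_center_iff] at h2
    exact h2

theorem zpowers_normal {G : Type} [Group G] (z : G) (hz : ∀ g : G, g * z = z * g) :
    (Subgroup.zpowers z).Normal := by
  constructor
  intro n hn g
  rw [Subgroup.mem_zpowers_iff] at hn ⊢
  obtain ⟨i, rfl⟩ := hn
  refine ⟨i, ?_⟩
  have h1 : Commute g z := hz g
  have h2 := (h1.zpow_right i).eq
  rw [h2, mul_inv_cancel_right]

end PEXaux

open PEXaux

theorem pex_thm (hPE0 : S_PE0) (hCES : S_CES) : S_PEX := by
  intro p k G _ _ _ _ _ ι hp hn hι
  obtain ⟨n, hn⟩ := hn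
  have main : ∀ (n : ℕ) (G : Type) [Group G] [Finite G] (ι : G → k), Nat.card G = p ^ n →
      (∀ g h : G, ι (g * h) = ι g + ι h) →
      ∃ (L : Type) (_ : Field L) (_ : Algebra k L) (x : L) (ρ : G →* (L ≃ₐ[k] L)),
        (∀ g : G, ρ g x = x + algebraMap k L (ι g)) ∧
          IsCover ρ (Polynomial.aeval x (Apol ι)) := by
    intro n
    induction n with
    | zero =>
      intro G _ _ ι hn hι
      refine hPE0 p k G ι hp hι ?_
      haveI : Subsingleton G := by
        rw [pow_zero] at hn
        exact (Nat.card_eq_one_iff_unique.1 hn).1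
      exact Function.injective_of_subsingleton ι
    | succ n ih =>
      intro G _ _ ι hn hι
      by_cases hinj : Function.Injective ι
      · exact hPE0 p k G ι hp hι hinj
      haveI := ker_normal ι hι
      have hK : ker ι hι ≠ ⊥ := by
        intro h0
        apply hinj
        intro a b hab
        have h1 : a * b⁻¹ ∈ ker ι hι := by
          rw [mem_ker]
          have h2 := hι b b⁻¹
          have h3 : ι 1 = 0 := (ker ι hι).one_mem
          rw [mul_inv_cancel, h3] at h2
          rw [hι, hab, ← h2]
        rw [h0, Subgroup.mem_bot] at h1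
        exact mul_inv_eq_one.1 h1
      obtain ⟨z, hzK, hzo, hzc⟩ := central hp hn (ker ι hι) hK
      haveI hN : (Subgroup.zpowers z).Normal := zpowers_normal z hzc
      let f : G →* Multiplicative k :=
        { toFun := fun g => Multiplicative.ofAdd (ι g)
          map_one' := by
            have h3 : ι 1 = 0 := (ker ι hι).one_mem
            rw [h3]
            rfl
          map_mul' := fun a b => by
            rw [hι]
            rfl }
      have hf : ∀ x ∈ Subgroup.zpowers z, f x = 1 := by
        intro x hx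
        have h1 : Subgroup.zpowers z ≤ ker ι hι := by
          rw [Subgroup.zpowers_le]
          exact hzK
        have h2 : ι x = 0 := h1 hx
        change Multiplicative.ofAdd (ι x) = 1
        rw [h2]
        rfl
      let F : G ⧸ Subgroup.zpowers z →* Multiplicative k := QuotientGroup.lift _ f hf
      let ι' : G ⧸ Subgroup.zpowers z → k := fun u => Multiplicative.toAdd (F u)
      have hι'c : ∀ g : G, ι' (g : G ⧸ Subgroup.zpowers z) = ι g := fun g => rfl
      have hι' : ∀ g h, ι' (g * h) = ι' g + ι' h := by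
        intro g h
        change Multiplicative.toAdd (F (g * h)) = _
        rw [map_mul]
        rfl
      have hcard : Nat.card (G ⧸ Subgroup.zpowers z) = p ^ n := by
        have h1 := Subgroup.card_eq_card_quotient_mul_card_subgroup (Subgroup.zpowers z)
        rw [hn, Nat.card_zpowers, hzo, pow_succ] at h1
        exact (Nat.eq_of_mul_eq_mul_right hp.pos h1).symm
      obtain ⟨L, fL, aL, x, ρ, hρ, hcov⟩ := ih (G ⧸ Subgroup.zpowers z) ι' hcard hι'
      obtain ⟨L', fL', aL', j, ρ', hcov', hρ'⟩ :=
        hCES p k L G z ρ _ hp inferInstance hzo hzc hcov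
      refine ⟨L', fL', aL', j x, ρ', ?_, ?_⟩
      · intro g
        rw [hρ', hρ, map_add, AlgHom.commutes, hι'c]
      · have hr : Set.range ι = Set.range ι' := by
          ext v
          constructor
          · rintro ⟨g, rfl⟩
            exact ⟨(g : G ⧸ Subgroup.zpowers z), hι'c g⟩
          · rintro ⟨u, rfl⟩
            obtain ⟨g, rfl⟩ := QuotientGroup.mk_surjective u
            exact ⟨g, (hι'c g).symm⟩
        rw [Apol_congr ι ι' hr, Polynomial.aeval_algHom_apply]
        exact hcov'
  exact main n G ι hn hι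

end Pool.CND
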