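import Pool.Agent.H78.CNZ.PEX

/-! Row ZMN of board `cnz` (helper78): the twisted covers and the divisor of `NG`. -/

set_option autoImplicit false

namespace Pool.CND

open Finset Matrix

namespace ZMNaux

theorem sep {K V : Type} [Field K] [AddCommGroup V] [Module K V] (v : V) (hv : v ≠ 0) :
    ∃ φ : V →ₗ[K] K, φ v ≠ 0 := by
  by_contra h
  push Not at h
  exact hv ((Module.forall_dual_apply_eq_zero_iff K v).1 h)

theorem exists_addhom {p : ℕ} {A : Type} [AddCommGroup A] (hp : p.Prime)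
    (hA : ∀ a : A, p • a = 0) (z : A) (hz : z ≠ 0) : ∃ f : A →+ ZMod p, f z ≠ 0 := by
  have : Fact p.Prime := ⟨hp⟩
  let md : Module (ZMod p) A := AddCommGroup.zmodModule hA
  obtain ⟨φ, hφ⟩ := sep (K := ZMod p) z hz
  exact ⟨φ.toAddMonoidHom, hφ⟩

theorem exists_hom_comm {p : ℕ} {A : Type} [CommGroup A] (hp : p.Prime)
    (hA : ∀ a : A, a ^ p = 1) (z : A) (hz : z ≠ 1) :
    ∃ ℓ : A → ZMod p, (∀ a b, ℓ (a * b) = ℓ a + ℓ b) ∧ ℓ z ≠ 0 := by
  obtain ⟨f, hf⟩ := exists_addhom (A := Additive A) hp (fun a => hA (Additive.toMul a))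
    (Additive.ofMul z) hz
  exact ⟨fun a => f (Additive.ofMul a), fun a b => map_add f (Additive.ofMul a)
    (Additive.ofMul b), hf⟩

/-- homomorphisms to `F_p` separate the points of an elementary abelian group -/
theorem exists_hom {p : ℕ} {G : Type} [Group G] (hp : p.Prime) (E : Subgroup G) (hE : EA p E)
    (z : E) (hz : z ≠ 1) : ∃ ℓ : E →* Multiplicative (ZMod p), ℓ z ≠ 1 := by
  have key : ∃ ℓ : E → ZMod p, (∀ a b, ℓ (a * b) = ℓ a + ℓ b) ∧ ℓ z ≠ 0 := by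
    let cg : CommGroup E :=
      { (inferInstance : Group E) with
        mul_comm := fun a b => Subtype.ext (hE.2 a a.2 b b.2) }
    exact exists_hom_comm (A := E) hp (fun a => Subtype.ext (hE.1 _ a.2)) z hz
  obtain ⟨ℓ, hm, hℓ⟩ := key
  refine ⟨MonoidHom.mk' (fun e => Multiplicative.ofAdd (ℓ e)) ?_, hℓ⟩
  intro a b
  rw [hm]
  rfl

/-- an additive map on `F_p ^ n` is a scalar product -/
theorem additive_dot {p n : ℕ} (T : (Fin n → ZMod p) →+ ZMod p) (ℓ : Fin n → ZMod p) :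
    T ℓ = ℓ ⬝ᵥ fun i => T (Pi.single i 1) := by
  have h1 := LinearMap.pi_apply_eq_sum_univ (AddMonoidHom.toZModLinearMap p T) ℓ
  have h2 : T ℓ = ∑ i, ℓ i • T (fun j => if i = j then 1 else 0) := h1
  rw [h2]
  unfold dotProduct
  refine sum_congr rfl fun i _ => ?_
  rw [smul_eq_mul]
  congr 2
  funext j
  rw [Pi.single_apply]
  by_cases h : i = j
  · rw [if_pos h, if_pos h.symm]
  · rw [if_neg h, if_neg (Ne.symm h)]

/-- a proper subgroup of `M` is killed by a nonzero functional -/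
theorem exists_functional {p n : ℕ} {G₂ : Type} [Group G₂] (hp : p.Prime) (M : Subgroup G₂)
    (φ : M ≃* Multiplicative (Fin n → ZMod p)) (N : Subgroup G₂) (hNM : N ≤ M) (hne : N ≠ M) :
    ∃ ℓ : Fin n → ZMod p, ℓ ≠ 0 ∧
      ∀ a : M, (a : G₂) ∈ N → ℓ ⬝ᵥ Multiplicative.toAdd (φ a) = 0 := by
  haveI : Fact p.Prime := ⟨hp⟩
  let W0 : AddSubgroup (Fin n → ZMod p) :=
    { carrier := {v | ∃ a : M, (a : G₂) ∈ N ∧ Multiplicative.toAdd (φ a) = v}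
      add_mem' := by
        rintro u v ⟨a, ha, rfl⟩ ⟨b, hb, rfl⟩
        refine ⟨a * b, N.mul_mem ha hb, ?_⟩
        rw [map_mul]
        rfl
      zero_mem' := ⟨1, N.one_mem, by rw [map_one]; rfl⟩
      neg_mem' := by
        rintro u ⟨a, ha, rfl⟩
        refine ⟨a⁻¹, N.inv_mem ha, ?_⟩
        rw [map_inv]
        rfl }
  let W : Submodule (ZMod p) (Fin n → ZMod p) := AddSubgroup.toZModSubmodule p W0
  have hmem : ∀ v, v ∈ W ↔ ∃ a : M, (a : G₂) ∈ N ∧ Multiplicative.toAdd (φ a) = v :=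
    fun v => Iff.rfl
  have hW : W < ⊤ := by
    rw [lt_top_iff_ne_top]
    intro h0
    apply hne
    refine le_antisymm hNM ?_
    intro a ha
    have h1 : Multiplicative.toAdd (φ ⟨a, ha⟩) ∈ W := by
      rw [h0]
      exact Submodule.mem_top
    obtain ⟨b, hb, hbe⟩ := (hmem _).1 h1
    have h2 : φ b = φ ⟨a, ha⟩ := Multiplicative.toAdd.injective hbe
    have h3 := φ.injective h2
    rw [h3] at hb
    exact hb
  obtain ⟨f, hf0, hf⟩ := Submodule.exists_le_ker_of_lt_top W hW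
  have hdot : ∀ v, f v = (fun i => f (Pi.single i 1)) ⬝ᵥ v := by
    intro v
    have h1 := additive_dot f.toAddMonoidHom v
    rw [dotProduct_comm]
    exact h1
  refine ⟨fun i => f (Pi.single i 1), ?_, ?_⟩
  · intro h0
    apply hf0
    ext v
    have h1 := hdot (Pi.single v 1)
    rw [h0, zero_dotProduct] at h1
    simpa using h1
  · intro a ha
    rw [← hdot]
    have h1 : Multiplicative.toAdd (φ a) ∈ W := (hmem _).2 ⟨a, ha, rfl⟩
    exact hf h1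

theorem card_vec {p n : ℕ} (hp : p.Prime) {G₂ : Type} [Group G₂] (M : Subgroup G₂)
    (φ : M ≃* Multiplicative (Fin n → ZMod p)) : Nat.card M = p ^ n := by
  haveI : Fact p.Prime := ⟨hp⟩
  rw [Nat.card_congr φ.toEquiv, Nat.card_congr (Multiplicative.toAdd (α := Fin n → ZMod p)),
    Nat.card_fun, Nat.card_eq_fintype_card, Nat.card_eq_fintype_card, ZMod.card,
    Fintype.card_fin]

theorem den_eq (m Q : ℕ) (hQ : 0 < Q) : ((m : ℚ) + 1 / (Q : ℚ)).den = Q := by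
  have h1 : ((m : ℚ) + 1 / (Q : ℚ)) = (((m * Q + 1 : ℕ) : ℤ) : ℚ) / ((Q : ℤ) : ℚ) := by
    have h0 : (Q : ℚ) ≠ 0 := by exact_mod_cast hQ.ne'
    push_cast
    field_simp
  have h2 : Nat.Coprime (((m * Q + 1 : ℕ) : ℤ)).natAbs ((Q : ℤ)).natAbs := by
    rw [Int.natAbs_natCast, Int.natAbs_natCast]
    rw [Nat.coprime_mul_right_add_left]
    exact Nat.coprime_one_left Q
  have h3 := Rat.den_div_eq_of_coprime (a := ((m * Q + 1 : ℕ) : ℤ)) (b := (Q : ℤ))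
    (by exact_mod_cast hQ) h2
  rw [← h1] at h3
  exact_mod_cast h3

end ZMNaux

open ZMNaux PEXaux

theorem zmn_thm (hPEX : S_PEX) (hZGD : S_ZGD) (hZHH : S_ZHH) (hZCV : S_ZCV) (hZBD : S_ZBD)
    (hCJC : S_CJC) (hCUQ : S_CUQ) (hTWI : S_TWI) (hPUN : S_PUN) : S_ZMN := by
  intro p d J k G _ _ _ _ _ E ι Ψ hp hn hcard hJ hZ
  obtain ⟨L₁, fL₁, aL₁, x₁, ρ₁, hρ₁, hcov₁⟩ := hPEX p k G ι hp hn hZ.ι_mul
  obtain ⟨B, hB⟩ := hZBD p k L₁ G ρ₁ ι x₁ hp inferInstance hZ.ι_mul hρ₁ hcov₁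
  have hc0 : ∃ c0 : ℕ, ∀ (P₁ : Place k L₁) (c₁ : ℚ),
      P₁.ord (Polynomial.aeval x₁ (Apol ι)) < 0 → IsConductor P₁ ρ₁ c₁ → c₁ < c0 := by
    by_cases h : ∃ (P₁ : Place k L₁) (c₁ : ℚ),
        P₁.ord (Polynomial.aeval x₁ (Apol ι)) < 0 ∧ IsConductor P₁ ρ₁ c₁
    · obtain ⟨P, c, hP, hc⟩ := h
      obtain ⟨c0, hc0⟩ := exists_nat_gt c
      refine ⟨c0, ?_⟩
      intro P₁ c₁ h1 h2
      have h3 := hCJC k L₁ G ρ₁ _ P P₁ c hcov₁ hP h1 hc
      rw [hCUQ k L₁ G ρ₁ P₁ c₁ c h2 h3]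
      exact hc0
    · refine ⟨0, ?_⟩
      intro P₁ c₁ h1 h2
      exact absurd ⟨P₁, c₁, h1, h2⟩ h
  obtain ⟨c0, hc0⟩ := hc0
  obtain ⟨G₂, gG₂, finG₂, M, n, φ, S, ι₂, C, Λ, ε, hXD, hEA, hMn, hMp, hrange, hcardG₂, hΛb,
    hΛa, hε1, hε2, hε3, hε4, hHF⟩ := hZGD p k G E ι hp hZ.ea hZ.normal hZ.ι_mul hZ.ι_ker
  have hp2 := hp.two_le
  -- the choice of `m`
  obtain ⟨m, hm4, hmB, hmc, hpm, hpm1⟩ : ∃ m : ℕ, 4 ≤ m ∧ B < m ∧ c0 ≤ m ∧ ¬ p ∣ m ∧
      (p = 2 ∨ ¬ p ∣ (m + 1)) := by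
    have h1 : B + c0 + 4 ≤ p * (B + c0 + 4) := Nat.le_mul_of_pos_left _ hp.pos
    refine ⟨p * (B + c0 + 4) + 1, by omega, by omega, by omega, ?_, ?_⟩
    · intro h2
      have h3 := (Nat.dvd_add_right (dvd_mul_right p (B + c0 + 4))).1 h2
      have h4 := Nat.le_of_dvd one_pos h3
      omega
    · by_cases h5 : p = 2
      · exact Or.inl h5
      · right
        intro h2
        have h3 := (Nat.dvd_add_right (dvd_mul_right p (B + c0 + 4))).1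
          (show p ∣ p * (B + c0 + 4) + 2 from h2)
        have h4 := Nat.le_of_dvd two_pos h3
        omega
  obtain ⟨H, z, hz1, hHm, hHc, hHd⟩ := hZHH p d J k G E ι Ψ hp hcard hJ hZ m hm4 hpm hpm1
  obtain ⟨F, hXC, hFH⟩ := hHF H hHm hHc
  -- the vector of `z`
  have hΛ0 : Λ 0 = 1 := by
    have h1 := hΛa 0 0
    rw [add_zero] at h1
    exact left_eq_mul.1 h1
  let T : (Fin n → ZMod p) →+ ZMod p :=
    { toFun := fun ℓ => Multiplicative.toAdd (Λ ℓ z)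
      map_zero' := by
        rw [hΛ0]
        rfl
      map_add' := fun a b => by
        rw [hΛa]
        rfl }
  let zv : Fin n → ZMod p := fun i => T (Pi.single i 1)
  have hT : ∀ ℓ, ℓ ⬝ᵥ zv = Multiplicative.toAdd (Λ ℓ z) := fun ℓ => (additive_dot T ℓ).symm
  have hzv : zv ≠ 0 := by
    intro h0
    obtain ⟨ℓ, hℓ⟩ := exists_hom hp E hZ.ea z hz1
    obtain ⟨v, rfl⟩ := hΛb.2 ℓ
    apply hℓ
    have h1 := hT v
    rw [h0, dotProduct_zero] at h1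
    exact Multiplicative.toAdd.injective h1.symm
  have hΛne : ∀ ℓ, ℓ ≠ 0 → Λ ℓ ≠ 1 := by
    intro ℓ h1 h2
    apply h1
    apply hΛb.1
    rw [h2, hΛ0]
  set D0 : ℕ := p ^ d * (m - 1) + p ^ J + 1 with hD0
  have hpd : 0 < p ^ d := pow_pos hp.pos d
  have hpJ : 0 < p ^ J := pow_pos hp.pos J
  have hdeg : ∀ ℓ : Fin n → ZMod p, ℓ ≠ 0 → ∃ (D : ℕ) (r : Polynomial k),
      p ^ d * (m - 1) + 1 ≤ D ∧ ¬ p ∣ D ∧
      ((∑ i, Polynomial.C (fp k (ℓ i)) * F i) - (r ^ p - r)).natDegree = D ∧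
      (ℓ ⬝ᵥ zv ≠ 0 → D = D0) := by
    intro ℓ hℓ
    obtain ⟨D, r, h1, h2, h3, h4⟩ := hHd (Λ ℓ) (hΛne ℓ hℓ)
    refine ⟨D, r, h1, h2, ?_, ?_⟩
    · rw [hFH]
      exact h3
    · intro h5
      apply h4
      intro h6
      apply h5
      rw [hT, h6]
      rfl
  have hcard₂ : Nat.card (Set.range ι₂) = p ^ d := by
    rw [hrange]
    exact hcard
  have hcardG₂' : Nat.card G₂ = p ^ d * Nat.card M := by
    rw [hcardG₂, hcard]
  obtain ⟨L₂, fL₂, aL₂, x₂, ρ₂, P₂, hρ₂, hcov₂, hord₂, hcond₂, hy₂⟩ :=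
    hZCV p d k G₂ M n φ S ι₂ C F zv D0 hp (by omega) hEA hMn hMp hcard₂ hcardG₂' hXD hXC hzv
      (by omega) (fun ℓ hℓ => by
        obtain ⟨D, r, h1, h2, h3, h4⟩ := hdeg ℓ hℓ
        exact ⟨D, r, by omega, h2, h3, h4⟩)
  have hA : Apol ι₂ = Apol ι := Apol_congr ι₂ ι hrange
  rw [hA] at hcov₂ hord₂
  -- the value of the conductor
  have hsplit : p ^ d = p ^ (d - J) * p ^ J := by
    rw [← pow_add]
    congr 1
    omega
  have hc₂ : ((D0 : ℚ) + ((p : ℚ) ^ d - 1)) / (p : ℚ) ^ d =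
      (m : ℚ) + 1 / ((p ^ (d - J) : ℕ) : ℚ) := by
    have hm1 : ((m - 1 : ℕ) : ℚ) = (m : ℚ) - 1 := by
      rw [Nat.cast_sub (by omega)]
      norm_num
    have h1 : (D0 : ℚ) = (p : ℚ) ^ d * ((m : ℚ) - 1) + (p : ℚ) ^ J + 1 := by
      rw [hD0]
      push_cast
      rw [hm1]
    have h2 : (p : ℚ) ^ d = (p : ℚ) ^ (d - J) * (p : ℚ) ^ J := by exact_mod_cast hsplit
    have h3 : (p : ℚ) ^ (d - J) ≠ 0 := by
      have := hp.pos
      positivity
    have h4 : (p : ℚ) ^ J ≠ 0 := by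
      have := hp.pos
      positivity
    rw [h1, h2]
    push_cast
    field_simp
    ring
  have hmem := hTWI p k L₁ L₂ G G₂ E M ε ρ₁ ρ₂ x₁ x₂ ι ι₂ (Apol ι) P₂
    (((D0 : ℚ) + ((p : ℚ) ^ d - 1)) / (p : ℚ) ^ d) hp inferInstance hn
    (by
      refine ⟨d + n, ?_⟩
      rw [hcardG₂', card_vec hp M φ, ← pow_add])
    (fun g hg => (hZ.ι_ker g).2 fun a ha => hZ.ea.2 g hg a ha)
    hXD.ι_ker hε1 hε2 hε3 hε4 hcov₁ hcov₂ hρ₁ hρ₂ hord₂ hcond₂
    (by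
      intro P₁ c₁ h1 h2
      rw [hc₂]
      have h3 := hc0 P₁ c₁ h1 h2
      have h4 : (c0 : ℚ) ≤ m := by exact_mod_cast hmc
      have h5 : (0 : ℚ) < 1 / ((p ^ (d - J) : ℕ) : ℚ) := by
        have := hp.pos
        positivity
      linarith)
    (by
      intro N hNM hNne
      obtain ⟨ℓ, hℓ0, hℓ⟩ := exists_functional hp M φ N hNM hNne
      obtain ⟨y, hy1, hy2⟩ := hy₂ ℓ
      refine ⟨y, ∑ i, Polynomial.C (fp k (ℓ i)) * F i, ?_, hy1, ?_⟩
      · intro a ha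
        have h1 := hy2 ⟨a, hNM ha⟩
        rw [hℓ ⟨a, hNM ha⟩ ha] at h1
        have h2 : fp k (0 : ZMod p) = 0 := by
          unfold fp
          exact map_zero _
        rw [h2, map_zero, add_zero] at h1
        exact h1
      · intro y₁ h1
        obtain ⟨D, r, h2, h3, h4, _⟩ := hdeg ℓ hℓ0
        have h5 := hB y₁ _ r D h1 h3 h4
        have h6 : m - 1 ≤ p ^ d * (m - 1) := Nat.le_mul_of_pos_left _ hpd
        omega)
  rw [hc₂] at hmem
  have hfin := hPUN p k G _ hp inferInstance hmem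
  rw [den_eq m (p ^ (d - J)) (pow_pos hp.pos _)] at hfin
  exact hfin

end Pool.CND
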